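import Pool.Agent.MWG.Stmts

set_option autoImplicit false

namespace Pool.Agent.MWG.H77

open Pool.Agent.Helper14_MV Pool.Agent.Helper2_MV Pool.Agent.MVO Pool.Agent.MWL Pool.Agent.MWS

theorem gm1 {β : FIC} (h : ClM β) (p q : List ℕ) (x : ℕ) (hx : x ∈ p) :
    RR β (p ++ x :: x :: q) (p ++ x :: q) := by
  obtain ⟨p1, p2, rfl⟩ := List.append_of_mem hx
  have h1 := h.gm.sub (fun n => if n = 0 then [x] else p2)
  have h2 : RR β (x :: (p2 ++ [x])) (x :: (p2 ++ [x, x])) := by simpa using h1
  have h3 := ((RR.refl (β := β) p1).append h2).append (RR.refl (β := β) q)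
  simp only [List.append_assoc, List.cons_append, List.nil_append] at h3 ⊢
  exact β.symm h3

theorem gm2 {β : FIC} (h : ClM β) (p q : List ℕ) (x : ℕ) (hx : x ∈ p) (m : ℕ) :
    RR β (p ++ (List.replicate (m + 1) x ++ q)) (p ++ x :: q) := by
  induction m with
  | zero => exact RR.refl _
  | succ m ih =>
    exact β.trans (gm1 h p (List.replicate m x ++ q) x hx) ih

theorem ap1 {β : FIC} (h : ClM β) (x m : ℕ) : RR β (List.replicate (m + 2) x) [x, x] := by
  induction m with
  | zero => exact RR.refl _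
  | succ m ih =>
    have h1 := h.ap.sub (fun _ => [x])
    have h2 : RR β [x, x] [x, x, x] := by simpa using h1
    have h3 := (RR.refl (β := β) [x]).append ih
    exact β.trans h3 (β.symm h2)

theorem gmd : GmdStmt := by
  intro β h
  constructor
  · intro p q x m m' hx hm hm'
    obtain ⟨a, rfl⟩ := Nat.exists_eq_add_of_le' hm
    obtain ⟨b, rfl⟩ := Nat.exists_eq_add_of_le' hm'
    exact β.trans (gm2 h p q x hx a) (β.symm (gm2 h p q x hx b))
  · intro x m m' hm hm'
    obtain ⟨a, rfl⟩ := Nat.exists_eq_add_of_le' hm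
    obtain ⟨b, rfl⟩ := Nat.exists_eq_add_of_le' hm'
    exact β.trans (ap1 h x a) (β.symm (ap1 h x b))

end Pool.Agent.MWG.H77
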